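import Pool.Agent.OTR.F4

/-!
# MP_ac0d5f_co: the non-leaf h-index theorem for ordered bipartite patterns
-/

set_option autoImplicit false

namespace Pool.Agent.Results.MP_ac0d5f_co.NonLeafTuran

open Pool.Agent.OTR

/-- Let `P` be an ordered graph on `Fin k` with at least one edge, ordered bipartite with classes
`{x < m}` and `{x ≥ m}`, and let `h ≥ 1`. If all but at most `h` vertices of one of the two classes
have at most `h` neighbours of degree at least `2`, then for every `ε > 0` there is `C` with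
`ex_<(P,n) ≤ C n^(2 - 1/h + ε)` for all `n`. -/
theorem result : ∀ (k m h : ℕ) (P : SimpleGraph (Fin k)), 1 ≤ h → OrderedBipartite P m →
    P.edgeSet.Nonempty → NLIndexLe P m h → ∀ ε : ℝ, 0 < ε →
      ∃ C : ℝ, ∀ n : ℕ, (exLt P n : ℝ) ≤ C * (n : ℝ) ^ (2 - 1 / (h : ℝ) + ε) := by
  intro k m h P hh hP hne hH ε hε
  obtain ⟨C, -, hC⟩ := nonleaf_theorem P m h hh hP hne hH ε hε
  exact ⟨C, hC⟩

end Pool.Agent.Results.MP_ac0d5f_co.NonLeafTuran
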