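import Pool.Agent.OTR.F4

/-!
# MP_ac0d5f_co: ordered bipartite patterns with a dense subgraph
-/

set_option autoImplicit false

namespace Pool.Agent.Results.MP_ac0d5f_co.QOneDensity

open Pool.Agent.OTR

/-- Let `P` be ordered bipartite, `h ≥ 1`, and suppose all but at most `h` vertices of one of the two
classes have at most `h` neighbours of degree at least `2`. If `P` contains a graph `H` with `v`
vertices, `e ≥ 2` edges and `(v-2)/(e-1) < 1/3 + 1/h`, then `r_P(n) ≤ C n^(1/3 - δ)` for some `δ > 0`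
and all `n ≥ 2`. -/
theorem result : ∀ (k m h v : ℕ) (P : SimpleGraph (Fin k)) (H : SimpleGraph (Fin v)), 1 ≤ h →
    OrderedBipartite P m → NLIndexLe P m h → H.IsContained P → 2 ≤ H.edgeSet.ncard →
    ((v : ℝ) - 2) / ((H.edgeSet.ncard : ℝ) - 1) < 1 / 3 + 1 / (h : ℝ) →
      ∃ δ : ℝ, 0 < δ ∧ ∃ C : ℝ, ∀ n : ℕ, 2 ≤ n → rP P n ≤ C * (n : ℝ) ^ ((1 : ℝ) / 3 - δ) := by
  intro k m h v P H hh hP hH hHP h2 hdens
  exact q1_subgraph_nl P m h hh hP hH H hHP h2 hdens

end Pool.Agent.Results.MP_ac0d5f_co.QOneDensity
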