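import Pool.Agent.OTR.F4

/-!
# MP_ac0d5f_co: ordered bipartite patterns with a 4-cycle
-/

set_option autoImplicit false

namespace Pool.Agent.Results.MP_ac0d5f_co.QOneFourCycle

open Pool.Agent.OTR

/-- Let `P` be ordered bipartite and contain a 4-cycle. If all but at most `5` vertices of one of the
two classes have at most `5` neighbours of degree at least `2`, or if `P` has fewer than `36` edges
with both ends of degree at least `2`, then `r_P(n) ≤ C n^(1/3 - δ)` for some `δ > 0` and all
`n ≥ 2`. -/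
theorem result : ∀ (k m : ℕ) (P : SimpleGraph (Fin k)), OrderedBipartite P m →
    (SimpleGraph.cycleGraph 4).IsContained P → (NLIndexLe P m 5 ∨ (coreEdges P).ncard < 36) →
      ∃ δ : ℝ, 0 < δ ∧ ∃ C : ℝ, ∀ n : ℕ, 2 ≤ n → rP P n ≤ C * (n : ℝ) ^ ((1 : ℝ) / 3 - δ) := by
  intro k m P hP h4 hH
  exact q1_c4_core P m hP hH h4

end Pool.Agent.Results.MP_ac0d5f_co.QOneFourCycle
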