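import Pool.Agent.OTR.F4

/-!
# MP_ac0d5f_co: an upper bound for the ratio `r_P` in terms of the number of edges between vertices
of degree at least 2
-/

set_option autoImplicit false

namespace Pool.Agent.Results.MP_ac0d5f_co.RatioCore

open Pool.Agent.OTR

/-- For every ordered bipartite `P` with at least `2` edges and every `ε > 0` there is `C` with
`r_P(n) ≤ C n^(1 - 1/√s + ε)` for all `n ≥ 2`, where `s` is the number of edges of `P` both of whose
ends have degree at least `2` (and `s = 1` if there is none). -/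
theorem result : ∀ (k m : ℕ) (P : SimpleGraph (Fin k)), OrderedBipartite P m →
    2 ≤ P.edgeSet.ncard → ∀ ε : ℝ, 0 < ε → ∃ C : ℝ, ∀ n : ℕ, 2 ≤ n →
      rP P n ≤ C * (n : ℝ) ^ (1 - 1 / Real.sqrt ((max 1 (coreEdges P).ncard : ℕ) : ℝ) + ε) := by
  intro k m P hP h2 ε hε
  obtain ⟨C, -, hC⟩ := rP_le_core P m hP h2 ε hε
  exact ⟨C, hC⟩

end Pool.Agent.Results.MP_ac0d5f_co.RatioCore
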